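import Pool.Agent.L7h57.RV.Stm

/-! Part SYM3 of project RV. -/

set_option autoImplicit false

namespace Pool.Agent.L7h93.RV
open MvPolynomial Pool.Helper89.Rev Pool.Agent.L7h57.RV

theorem mone_inv (n : ℕ) : (mone n)⁻¹ = mone n := Units.ext rfl

theorem linPart_mone (n : ℕ) : linPart ((mone n : G n) : FormalMap n) = -1 :=
  linPart_unitOf _ _ _ _

theorem lin_neg {n : ℕ} (k : Fin n) : lin (-1 : Matrix (Fin n) (Fin n) ℂ) k = -X k := by
  have h := lin_one k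
  unfold lin at h ⊢
  rw [← h, ← Finset.sum_neg_distrib]
  refine Finset.sum_congr rfl fun l _ => ?_
  rw [Matrix.neg_apply, map_neg, neg_mul]

theorem aeval_neg {n d : ℕ} {P : MvPolynomial (Fin n) ℂ} (hP : P.IsHomogeneous d) :
    aeval (lin (-1 : Matrix (Fin n) (Fin n) ℂ)) P = (-1) ^ d * P := by
  conv_rhs => rw [P.as_sum]
  rw [aeval_def, eval₂_eq', Finset.mul_sum]
  refine Finset.sum_congr rfl fun m hm => ?_
  have hd : m.degree = d := by
    have h1 := hP (mem_support_iff.1 hm)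
    rw [Finsupp.degree_eq_weight_one]
    exact h1
  have e1 : ∏ i, lin (-1 : Matrix (Fin n) (Fin n) ℂ) i ^ m i =
      (-1) ^ d * ∏ i, (X i : MvPolynomial (Fin n) ℂ) ^ m i := by
    rw [← hd, Finsupp.degree_eq_sum, ← Finset.prod_pow_eq_pow_sum, ← Finset.prod_mul_distrib]
    refine Finset.prod_congr rfl fun i _ => ?_
    rw [lin_neg, ← mul_pow, neg_one_mul]
  rw [e1, monomial_eq, Finsupp.prod_fintype _ _ (fun i => pow_zero _)]
  simp only [algebraMap_eq]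
  ring

theorem act_neg {n : ℕ} {P : VF n} (hP : HomT 3 P) : act (-1) (-1) P = P := by
  funext i
  have h : ∀ j, C ((-1 : Matrix (Fin n) (Fin n) ℂ) i j) * aeval (lin (-1)) (P j) =
      if i = j then P j else 0 := by
    intro j
    rw [aeval_neg (hP j), Matrix.neg_apply, Matrix.one_apply]
    split_ifs
    · rw [C_neg, C_1]; ring
    · simp
  unfold act
  simp only [h]
  simp

theorem br_neg {n : ℕ} (C D : VF n) : br C (-D) = br D C := by
  funext i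
  unfold br
  refine Finset.sum_congr rfl fun j _ => ?_
  simp only [Pi.neg_apply, map_neg]
  ring

theorem s_SYM3 (h1 : S_GRC) : S_SYM3 := by
  intro n c1 c2 c3 m1 m2 m3 e1 e2 e3 hg
  set ε := mone n with hε
  have hεε : ε * ε = 1 := by
    have := mul_inv_cancel ε
    rwa [mone_inv] at this
  have h22 : (2 : ℕ) ≤ 2 := le_refl _
  have h23 : (2 : ℕ) ≤ 3 := by norm_num
  set k : G n := (c1 * c3)⁻¹ * c2 with hk
  have m13 : c1 * c3 ∈ K n 2 := (K n 2).mul_mem m1 m3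
  have mk2 : k ∈ K n 2 := (K n 2).mul_mem ((K n 2).inv_mem m13) m2
  have gk : gr 2 (k : FormalMap n) = 0 := by
    rw [hk, gr_mul h22 ((K n 2).inv_mem m13) m2, gr_inv h22 m13, gr_mul h22 m1 m3, hg]
    simp
  have mk3 : k ∈ K n 3 := mem_K_succ h22 mk2 gk
  have ec2 : c2 = c1 * c3 * k := by rw [hk]; group
  -- first form of z
  have ez : c1 * c2⁻¹ * c3 = (c1 * k⁻¹ * c1⁻¹) * (c1 * c3⁻¹ * c1⁻¹ * (c3⁻¹)⁻¹) := by
    rw [ec2]; group
  have ma : c1 * k⁻¹ * c1⁻¹ ∈ K n 3 := (K_normal 3).conj_mem _ ((K n 3).inv_mem mk3) c1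
  obtain ⟨mb, gb⟩ := h1 n 2 h22 c1 c3⁻¹ m1 ((K n 2).inv_mem m3)
  have mz : c1 * c2⁻¹ * c3 ∈ K n 3 := by
    rw [ez]
    exact (K n 3).mul_mem ma mb
  have hc1 : ∀ c : G n, c ∈ K n 2 → ∀ u : G n, u ∈ K n 3 →
      gr 3 ((c * u * c⁻¹ : G n) : FormalMap n) = gr 3 (u : FormalMap n) := by
    intro c hc u hu
    rw [gr_conj h23 c hu, linPart_of_mem_K hc, linPart_of_mem_K ((K n 2).inv_mem hc), act_one]
  have gz : gr 3 ((c1 * c2⁻¹ * c3 : G n) : FormalMap n) = -gr 3 (k : FormalMap n) +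
      br (gr 2 (c3 : FormalMap n)) (gr 2 (c1 : FormalMap n)) := by
    rw [ez, gr_mul h23 ma mb, hc1 c1 m1 _ ((K n 3).inv_mem mk3), gr_inv h23 mk3]
    have gb' : gr 3 ((c1 * c3⁻¹ * c1⁻¹ * (c3⁻¹)⁻¹ : G n) : FormalMap n) =
        br (gr 2 (c3 : FormalMap n)) (gr 2 (c1 : FormalMap n)) := by
      rw [gr_inv h22 m3, br_neg] at gb
      exact gb
    rw [gb']
  -- the conjugate of z
  have ez' : ε * (c1 * c2⁻¹ * c3) * ε⁻¹ = c3 * k * c3⁻¹ := by
    have hi : ε⁻¹ = ε := mone_inv n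
    have f2 : ε * c2⁻¹ * ε = c2 := by
      have : (ε * c2 * ε)⁻¹ = ε * c2⁻¹ * ε := by
        rw [mul_inv_rev, mul_inv_rev, hi, mul_assoc]
      rw [← this, e2, inv_inv]
    calc ε * (c1 * c2⁻¹ * c3) * ε⁻¹ = (ε * c1 * ε) * (ε * c2⁻¹ * ε) * (ε * c3 * ε) := by
          rw [hi]
          calc ε * (c1 * c2⁻¹ * c3) * ε = ε * c1 * 1 * c2⁻¹ * 1 * c3 * ε := by group
            _ = ε * c1 * (ε * ε) * c2⁻¹ * (ε * ε) * c3 * ε := by rw [hεε]
            _ = _ := by group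
      _ = c1⁻¹ * c2 * c3⁻¹ := by rw [e1, f2, e3]
      _ = c3 * k * c3⁻¹ := by rw [ec2]; group
  have gz' : gr 3 ((c1 * c2⁻¹ * c3 : G n) : FormalMap n) = gr 3 (k : FormalMap n) := by
    have q1 := gr_conj h23 ε mz
    rw [ez', hc1 c3 m3 k mk3, mone_inv, linPart_mone, act_neg (gr_hom 3 _)] at q1
    exact q1.symm
  refine ⟨mz, ?_⟩
  rw [two_smul]
  nth_rewrite 1 [gz']
  rw [gz]
  abel

end Pool.Agent.L7h93.RV
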