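import Pool.Agent.L7h57.RV.Stm2

set_option autoImplicit false

/-! [LIN3] of project RV (helper57): the linearised equation in degree three. -/

namespace Pool.Agent.L7h93.RV

open MvPolynomial Pool.Helper89.Rev Pool.Agent.L7h57.RV

theorem br_tE {D : VF 3} (hD : HomT 2 D) (j i : Fin 3) :
    br (tE j) D i = X i * D j - X j * D i := by
  have h := (hD i).sum_X_mul_pderiv
  rw [Fin.sum_univ_three, nsmul_eq_mul] at h
  push_cast at h
  unfold br tE
  rw [Fin.sum_univ_three]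
  have e : ∀ l : Fin 3, pderiv l ((X j : MvPolynomial (Fin 3) ℂ) * X i) =
      X j * (Pi.single i 1 : Fin 3 → MvPolynomial (Fin 3) ℂ) l +
      X i * (Pi.single j 1 : Fin 3 → MvPolynomial (Fin 3) ℂ) l := by
    intro l
    rw [Derivation.leibniz, pderiv_X, pderiv_X, smul_eq_mul, smul_eq_mul, Pi.single_comm i 1 l,
      Pi.single_comm j 1 l]
  rw [e, e, e]
  have e2 : ∀ k : Fin 3, (Pi.single k 1 : Fin 3 → MvPolynomial (Fin 3) ℂ) 0 * D 0 +
      (Pi.single k 1 : Fin 3 → MvPolynomial (Fin 3) ℂ) 1 * D 1 +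
      (Pi.single k 1 : Fin 3 → MvPolynomial (Fin 3) ℂ) 2 * D 2 = D k := by
    intro k
    fin_cases k <;> simp [Pi.single_apply]
  linear_combination (X j) * e2 i + X i * e2 j - (X j) * h

theorem br_left (C C' D : VF 3) (i : Fin 3) : br (C + C') D i = br C D i + br C' D i := by
  unfold br
  rw [Fin.sum_univ_three, Fin.sum_univ_three, Fin.sum_univ_three]
  simp only [Pi.add_apply, map_add]
  ring

theorem br_P0 {D : VF 3} (hD : HomT 2 D) (i : Fin 3) :
    br P0 D i = X i * (D 0 + D 2) - (X 0 + X 2) * D i := by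
  unfold P0
  rw [br_left, br_tE hD, br_tE hD]
  ring

theorem br_anti (C D : VF 3) (i : Fin 3) : br C D i = - br D C i := by
  unfold br
  rw [Fin.sum_univ_three, Fin.sum_univ_three]
  ring

theorem lin_sg (k : Fin 3) : lin sg k = C ((![1, 1, -1] : Fin 3 → ℂ) k) * X k := by
  unfold lin sg
  rw [Finset.sum_eq_single k]
  · rw [Matrix.diagonal_apply_eq]
  · intro l _ hl
    rw [Matrix.diagonal_apply_ne _ (Ne.symm hl), map_zero, zero_mul]
  · intro h; exact absurd (Finset.mem_univ _) h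

theorem act_sg (P : VF 3) (i : Fin 3) :
    act sg sg P i = C ((![1, 1, -1] : Fin 3 → ℂ) i) * aeval (lin sg) (P i) := by
  unfold act
  rw [Finset.sum_eq_single i]
  · unfold sg
    rw [Matrix.diagonal_apply_eq]
  · intro l _ hl
    unfold sg
    rw [Matrix.diagonal_apply_ne _ (Ne.symm hl), map_zero, zero_mul]
  · intro h; exact absurd (Finset.mem_univ _) h

theorem sg_sq : sg * sg = 1 := by
  unfold sg
  rw [Matrix.diagonal_mul_diagonal, ← Matrix.diagonal_one]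
  congr 1
  funext i
  fin_cases i <;> simp

theorem act_sq (P : VF 3) : act sg sg (act sg sg P) = P := by
  rw [act_act, sg_sq, act_one]

theorem alg {R : Type} [CommRing R]
    (x0 x1 x2 xi wi d10 d12 d1i f0 f2 fi d30 d32 d3i b00 b11 b22 b0i b1i b2i cq : R)
    (g1 : d1i + d3i = b0i) (g2 : d1i - d3i = b2i) (g3 : d10 + d30 = b00) (g4 : d12 - d32 = b22)
    (b3 : x0 * b0i + x1 * b1i + x2 * b2i = -wi + xi * cq) (b4 : b00 + b11 + b22 = cq) :
    wi = (xi * ((d10 + f0) + (d12 + f2)) - (x0 + x2) * (d1i + fi)) +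
      -(xi * (-b11) - x1 * (-b1i)) +
      (-(xi * (f0 + f2) - (x0 + x2) * fi) - -(xi * (d30 - d32) - (x0 - x2) * d3i)) := by
  linear_combination (-xi) * g3 - xi * g4 + x0 * g1 + x2 * g2 + b3 - xi * b4

theorem s_ne (i : Fin 3) : (![1, 1, -1] : Fin 3 → ℂ) i * (![1, 1, -1] : Fin 3 → ℂ) i = 1 := by
  fin_cases i <;> simp

theorem ite_sum (c : MvPolynomial (Fin 3) ℂ) (i : Fin 3) :
    X 0 * (if i = 0 then c else 0) + X 1 * (if i = 1 then c else 0) +
      X 2 * (if i = 2 then c else 0) = X i * c := by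
  fin_cases i <;> simp

theorem key_X (i : Fin 3) : C ((![1, 1, -1] : Fin 3 → ℂ) i) *
    aeval (lin sg) (X i : MvPolynomial (Fin 3) ℂ) = X i := by
  rw [aeval_X, lin_sg, ← mul_assoc, ← C_mul, s_ne, C_1, one_mul]

theorem act_form (F D3 : VF 3) (hF : F = act sg sg D3) (i : Fin 3) :
    act sg sg (fun i => -(X i * (F 0 + F 2) - (X 0 + X 2) * F i)) i =
      -(X i * (D3 0 - D3 2) - (X 0 - X 2) * D3 i) := by
  have hFD : ∀ i, C ((![1, 1, -1] : Fin 3 → ℂ) i) * aeval (lin sg) (F i) = D3 i := by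
    intro i
    rw [← act_sg, hF, act_sq]
  have f0 : aeval (lin sg) (F 0) = D3 0 := by
    have := hFD 0
    simpa using this
  have f2 : aeval (lin sg) (F 2) = - D3 2 := by
    have h2 := hFD 2
    have e : (![1, 1, -1] : Fin 3 → ℂ) 2 = -1 := rfl
    rw [e, C_neg, C_1] at h2
    linear_combination (-1 : MvPolynomial (Fin 3) ℂ) * h2
  have x0 : aeval (lin sg) (X 0 : MvPolynomial (Fin 3) ℂ) = X 0 := by
    rw [aeval_X, lin_sg]; simp
  have x2 : aeval (lin sg) (X 2 : MvPolynomial (Fin 3) ℂ) = - X 2 := by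
    rw [aeval_X, lin_sg]; simp
  have hx := key_X i
  have hf := hFD i
  rw [act_sg, map_neg, map_sub, map_mul, map_mul, map_add, map_add, f0, f2, x0, x2]
  linear_combination (-(D3 0 - D3 2)) * hx + (X 0 - X 2) * hf

theorem s_LIN3 : S_LIN3 := by
  intro w hw
  obtain ⟨h, hh⟩ : ∃ h : ℂ, 2 * h = 1 := ⟨1 / 2, by norm_num⟩
  obtain ⟨t, ht⟩ : ∃ t : ℂ, 3 * t = 1 := ⟨1 / 3, by norm_num⟩
  have hh' : (2 : MvPolynomial (Fin 3) ℂ) * C h = 1 := by
    rw [show (2 : MvPolynomial (Fin 3) ℂ) = C 2 from (map_ofNat C 2).symm, ← C_mul, hh, C_1]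
  have ht' : (3 : MvPolynomial (Fin 3) ℂ) * C t = 1 := by
    rw [show (3 : MvPolynomial (Fin 3) ℂ) = C 3 from (map_ofNat C 3).symm, ← C_mul, ht, C_1]
  have hEu : ∀ i, X 0 * pderiv 0 (w i) + X 1 * pderiv 1 (w i) + X 2 * pderiv 2 (w i) =
      3 * w i := by
    intro i
    have h := (hw i).sum_X_mul_pderiv
    rw [Fin.sum_univ_three, nsmul_eq_mul] at h
    push_cast at h
    exact h
  obtain ⟨u, hu⟩ : ∃ u : Fin 3 → VF 3, ∀ j i, u j i = C t * pderiv j (w i) :=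
    ⟨fun j i => C t * pderiv j (w i), fun _ _ => rfl⟩
  have hu2 : ∀ j i, (u j i).IsHomogeneous 2 := by
    intro j i
    rw [hu]
    have := (isHomogeneous_C (Fin 3) t).mul ((hw i).pderiv (i := j))
    simpa using this
  have huw : ∀ i, X 0 * u 0 i + X 1 * u 1 i + X 2 * u 2 i = w i := by
    intro i
    rw [hu, hu, hu]
    linear_combination (C t) * hEu i + w i * ht'
  clear hEu hu
  obtain ⟨q, hq⟩ : ∃ q : MvPolynomial (Fin 3) ℂ, q = u 0 0 + u 1 1 + u 2 2 := ⟨_, rfl⟩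
  have hq2 : q.IsHomogeneous 2 := by
    rw [hq]
    exact ((hu2 0 0).add (hu2 1 1)).add (hu2 2 2)
  obtain ⟨cq, hcq⟩ : ∃ cq : MvPolynomial (Fin 3) ℂ, cq = C h * q := ⟨_, rfl⟩
  have hCq2 : cq.IsHomogeneous 2 := by
    rw [hcq]
    have := (isHomogeneous_C (Fin 3) h).mul hq2
    simpa using this
  obtain ⟨B, hB⟩ : ∃ B : Fin 3 → VF 3, ∀ j i, B j i = - u j i + if i = j then cq else 0 :=
    ⟨fun j i => - u j i + if i = j then cq else 0, fun _ _ => rfl⟩
  have hB2 : ∀ j, HomT 2 (B j) := by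
    intro j i
    rw [hB]
    refine ((hu2 j i).neg).add ?_
    split_ifs
    · exact hCq2
    · exact isHomogeneous_zero _ _ _
  have b0 : B 0 0 = - u 0 0 + cq := by rw [hB, if_pos rfl]
  have b1 : B 1 1 = - u 1 1 + cq := by rw [hB, if_pos rfl]
  have b2 : B 2 2 = - u 2 2 + cq := by rw [hB, if_pos rfl]
  have b3 : ∀ i, X 0 * B 0 i + X 1 * B 1 i + X 2 * B 2 i = - w i + X i * cq := by
    intro i
    rw [hB, hB, hB]
    linear_combination (-1 : MvPolynomial (Fin 3) ℂ) * huw i + ite_sum cq i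
  have b4 : B 0 0 + B 1 1 + B 2 2 = cq := by
    rw [b0, b1, b2]
    linear_combination q * hh' + hq + (2 : MvPolynomial (Fin 3) ℂ) * hcq
  clear hB b0 b1 b2
  obtain ⟨D1, hD1⟩ : ∃ D : VF 3, ∀ i, D i = C h * (B 0 i + B 2 i) :=
    ⟨fun i => C h * (B 0 i + B 2 i), fun _ => rfl⟩
  obtain ⟨D3, hD3⟩ : ∃ D : VF 3, ∀ i, D i = C h * (B 0 i - B 2 i) :=
    ⟨fun i => C h * (B 0 i - B 2 i), fun _ => rfl⟩
  have hD12 : HomT 2 D1 := by
    intro i
    rw [hD1]
    have := (isHomogeneous_C (Fin 3) h).mul ((hB2 0 i).add (hB2 2 i))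
    simpa using this
  have hD32 : HomT 2 D3 := by
    intro i
    rw [hD3]
    have := (isHomogeneous_C (Fin 3) h).mul ((hB2 0 i).sub (hB2 2 i))
    simpa using this
  have g1 : ∀ i, D1 i + D3 i = B 0 i := by
    intro i
    rw [hD1, hD3]; linear_combination (B 0 i) * hh'
  have g2 : ∀ i, D1 i - D3 i = B 2 i := by
    intro i
    rw [hD1, hD3]; linear_combination (B 2 i) * hh'
  clear hD1 hD3
  obtain ⟨F, hF⟩ : ∃ F : VF 3, F = act sg sg D3 := ⟨_, rfl⟩
  have hF2 : HomT 2 F := by rw [hF]; exact act_hom hD32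
  have hA'2 : HomT 2 (fun i => D1 i + F i) := fun i => (hD12 i).add (hF2 i)
  have hA2 : HomT 2 (fun i => - B 1 i) := fun i => (hB2 1 i).neg
  have hE3 : HomT 3 (fun i => -(X i * (F 0 + F 2) - (X 0 + X 2) * F i)) := by
    intro i
    refine IsHomogeneous.neg (IsHomogeneous.sub ?_ ?_)
    · exact (isHomogeneous_X _ i).mul ((hF2 0).add (hF2 2))
    · exact ((isHomogeneous_X _ 0).add (isHomogeneous_X _ 2)).mul (hF2 i)
  refine ⟨_, _, _, hA2, hA'2, hE3, ?_⟩
  funext i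
  have r1 := br_P0 hA'2 i
  have r2 := (br_anti (fun i => - B 1 i) (tE 1) i).trans (congrArg Neg.neg (br_tE hA2 1 i))
  have r3 := act_form F D3 hF i
  have key := alg (X 0) (X 1) (X 2) (X i) (w i) (D1 0) (D1 2) (D1 i) (F 0) (F 2) (F i) (D3 0)
    (D3 2) (D3 i) (B 0 0) (B 1 1) (B 2 2) (B 0 i) (B 1 i) (B 2 i) cq (g1 i) (g2 i) (g1 0) (g2 2)
    (b3 i) b4
  rw [Pi.add_apply, Pi.add_apply, Pi.sub_apply, r1, r2, r3]
  exact key

end Pool.Agent.L7h93.RV
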